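import Mathlib

set_option autoImplicit false

namespace Pool.Agent.Results.MP_0eb722_an.Gap

open Matrix
open scoped ComplexOrder

/-- `Γ` belongs to `𝚪_θ`: every value `x* Γ x` is `0` or has argument of absolute value at most
`θ`. -/
def InGamma {n : ℕ} (θ : ℝ) (Γ : Matrix (Fin n) (Fin n) ℂ) : Prop :=
  ∀ x : Fin n → ℂ, star x ⬝ᵥ (Γ *ᵥ x) = 0 ∨ |(star x ⬝ᵥ (Γ *ᵥ x)).arg| ≤ θ

/-- `S_θ(M)`: the `Γ` in `𝚪_θ` with `I + Γ M` singular. -/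
def S {n : ℕ} (θ : ℝ) (M : Matrix (Fin n) (Fin n) ℂ) : Set (Matrix (Fin n) (Fin n) ℂ) :=
  {Γ | InGamma θ Γ ∧ (1 + Γ * M).det = 0}

/-- The largest singular value: the operator norm on Euclidean space. -/
noncomputable def sigmaMax {n : ℕ} (Γ : Matrix (Fin n) (Fin n) ℂ) : ℝ :=
  ‖Matrix.toEuclideanCLM (n := Fin n) (𝕜 := ℂ) Γ‖

open Classical in
/-- The phase-sensitive structured singular value. -/
noncomputable def mu {n : ℕ} (θ : ℝ) (M : Matrix (Fin n) (Fin n) ℂ) : ℝ :=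
  if (S θ M).Nonempty then 1 / sInf (sigmaMax '' S θ M) else 0

/-- The LMI bound. -/
noncomputable def muHat {n : ℕ} (θ : ℝ) (M : Matrix (Fin n) (Fin n) ℂ) : ℝ :=
  sInf {γ : ℝ | 0 < γ ∧ ∃ r : ℝ, 0 < r ∧ ∃ β : ℝ, (θ = 0 ∨ |β| ≤ Real.cot θ) ∧
    (-((r : ℂ) • (Mᴴ * M - ((γ ^ 2 : ℝ) : ℂ) • (1 : Matrix (Fin n) (Fin n) ℂ)) -
      ((1 + Complex.I * (β : ℂ)) • M + ((1 + Complex.I * (β : ℂ)) • M)ᴴ))).PosDef}

def J : Matrix (Fin 2) (Fin 2) ℂ := !![0, -1; 1, 0]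

theorem real_of (Γ : Matrix (Fin 2) (Fin 2) ℂ) (h : InGamma 0 Γ) (x : Fin 2 → ℂ) :
    (star x ⬝ᵥ (Γ *ᵥ x)).im = 0 ∧ 0 ≤ (star x ⬝ᵥ (Γ *ᵥ x)).re := by
  rcases h x with h0 | h0
  · rw [h0]; simp
  · have h1 : (star x ⬝ᵥ (Γ *ᵥ x)).arg = 0 := abs_eq_zero.1 (le_antisymm h0 (abs_nonneg _))
    rw [Complex.arg_eq_zero_iff] at h1
    exact ⟨h1.2, h1.1⟩

theorem herm (Γ : Matrix (Fin 2) (Fin 2) ℂ) (h : InGamma 0 Γ) : Γ.IsHermitian := by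
  have h1 := (real_of Γ h ![1, 0]).1
  have h2 := (real_of Γ h ![0, 1]).1
  have h3 := (real_of Γ h ![1, 1]).1
  have h4 := (real_of Γ h ![1, Complex.I]).1
  simp [Matrix.mulVec, dotProduct, Fin.sum_univ_two] at h1 h2 h3 h4
  ext i j
  rw [Matrix.conjTranspose_apply]
  fin_cases i <;> fin_cases j <;> apply Complex.ext <;> simp <;> linarith

theorem psd (Γ : Matrix (Fin 2) (Fin 2) ℂ) (h : InGamma 0 Γ) : Γ.PosSemidef := by
  refine Matrix.PosSemidef.of_dotProduct_mulVec_nonneg (herm Γ h) ?_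
  intro x
  rw [Complex.le_def]
  exact ⟨(real_of Γ h x).2, (real_of Γ h x).1.symm⟩

theorem S_empty : ¬ (S 0 J).Nonempty := by
  rintro ⟨Γ, hΓ, hdet⟩
  obtain ⟨x, hx, hx0⟩ := Matrix.exists_mulVec_eq_zero_iff.2 hdet
  rw [Matrix.add_mulVec, Matrix.one_mulVec, ← Matrix.mulVec_mulVec] at hx0
  have hxe : Γ *ᵥ (J *ᵥ x) = -x := by
    rw [eq_neg_iff_add_eq_zero, add_comm]; exact hx0
  have hreal := real_of Γ hΓ (J *ᵥ x)
  have hz : star (J *ᵥ x) ⬝ᵥ (Γ *ᵥ (J *ᵥ x)) = 0 := by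
    rw [hxe] at hreal ⊢
    apply Complex.ext
    · simp [J, Matrix.mulVec, dotProduct, Fin.sum_univ_two]
      ring
    · exact hreal.1
  rw [(psd Γ hΓ).dotProduct_mulVec_zero_iff, hxe] at hz
  exact hx (neg_eq_zero.1 hz)

theorem muHat_ge : 1 ≤ muHat 0 J := by
  apply le_csInf
  · refine ⟨2, by norm_num, 1, one_pos, 0, Or.inl rfl, ?_⟩
    have : (-(((1 : ℝ) : ℂ) • (Jᴴ * J - (((2 : ℝ) ^ 2 : ℝ) : ℂ) • (1 : Matrix (Fin 2) (Fin 2) ℂ)) -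
      ((1 + Complex.I * ((0 : ℝ) : ℂ)) • J + ((1 + Complex.I * ((0 : ℝ) : ℂ)) • J)ᴴ))) =
        Matrix.diagonal (fun _ : Fin 2 => (3 : ℂ)) := by
      ext i j
      fin_cases i <;> fin_cases j <;>
        simp [J, Matrix.mul_apply, Fin.sum_univ_two, Matrix.conjTranspose_apply] <;> norm_num
    rw [this]
    apply Matrix.PosDef.diagonal
    intro i
    norm_num
  · rintro γ ⟨hγ, r, hr, β, _, hpd⟩
    have h1 := hpd.diag_pos (i := 0)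
    have h2 : (-((r : ℂ) • (Jᴴ * J - ((γ ^ 2 : ℝ) : ℂ) • (1 : Matrix (Fin 2) (Fin 2) ℂ)) -
      ((1 + Complex.I * (β : ℂ)) • J + ((1 + Complex.I * (β : ℂ)) • J)ᴴ))) 0 0 =
        ((r * (γ ^ 2 - 1) : ℝ) : ℂ) := by
      simp [J, Matrix.mul_apply, Fin.sum_univ_two, Matrix.conjTranspose_apply]
      ring
    rw [h2] at h1
    have h3 : 0 < r * (γ ^ 2 - 1) := by exact_mod_cast h1
    have h4 : 0 < γ ^ 2 - 1 := (mul_pos_iff_of_pos_left hr).1 h3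
    nlinarith

/-- For `M = !![0, -1; 1, 0]` and `θ = 0` one has `μ_θ(M) = 0` and `μ̂_θ(M) ≥ 1`; so the LMI bound
is not always exact. -/
theorem result : mu 0 (!![0, -1; 1, 0] : Matrix (Fin 2) (Fin 2) ℂ) = 0 ∧
    1 ≤ muHat 0 (!![0, -1; 1, 0] : Matrix (Fin 2) (Fin 2) ℂ) ∧
    ∃ (n : ℕ) (M : Matrix (Fin n) (Fin n) ℂ) (θ : ℝ), 0 ≤ θ ∧ θ ≤ Real.pi / 2 ∧
      mu θ M < muHat θ M := by
  have h1 : mu 0 J = 0 := by
    unfold mu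
    rw [if_neg S_empty]
  refine ⟨h1, muHat_ge, 2, J, 0, le_refl _, by positivity, ?_⟩
  rw [h1]
  exact lt_of_lt_of_le one_pos muHat_ge

end Pool.Agent.Results.MP_0eb722_an.Gap
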