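import Mathlib

set_option autoImplicit false

namespace Pool.Agent.Results.MP_0eb722_an.GapAllTheta

open Matrix
open scoped ComplexOrder

/-- `Γ` belongs to `𝚪_θ`: every value `x* Γ x` is `0` or has argument of absolute value at most
`θ`. -/
def InGamma {n : ℕ} (θ : ℝ) (Γ : Matrix (Fin n) (Fin n) ℂ) : Prop :=
  ∀ x : Fin n → ℂ, star x ⬝ᵥ (Γ *ᵥ x) = 0 ∨ |(star x ⬝ᵥ (Γ *ᵥ x)).arg| ≤ θ

/-- `S_θ(M)`: the `Γ` in `𝚪_θ` with `I + Γ M` singular. -/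
def S {n : ℕ} (θ : ℝ) (M : Matrix (Fin n) (Fin n) ℂ) : Set (Matrix (Fin n) (Fin n) ℂ) :=
  {Γ | InGamma θ Γ ∧ (1 + Γ * M).det = 0}

/-- The largest singular value: the operator norm on Euclidean space. -/
noncomputable def sigmaMax {n : ℕ} (Γ : Matrix (Fin n) (Fin n) ℂ) : ℝ :=
  ‖Matrix.toEuclideanCLM (n := Fin n) (𝕜 := ℂ) Γ‖

open Classical in
/-- The phase-sensitive structured singular value. -/
noncomputable def mu {n : ℕ} (θ : ℝ) (M : Matrix (Fin n) (Fin n) ℂ) : ℝ :=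
  if (S θ M).Nonempty then 1 / sInf (sigmaMax '' S θ M) else 0

/-- The LMI bound. -/
noncomputable def muHat {n : ℕ} (θ : ℝ) (M : Matrix (Fin n) (Fin n) ℂ) : ℝ :=
  sInf {γ : ℝ | 0 < γ ∧ ∃ r : ℝ, 0 < r ∧ ∃ β : ℝ, (θ = 0 ∨ |β| ≤ Real.cot θ) ∧
    (-((r : ℂ) • (Mᴴ * M - ((γ ^ 2 : ℝ) : ℂ) • (1 : Matrix (Fin n) (Fin n) ℂ)) -
      ((1 + Complex.I * (β : ℂ)) • M + ((1 + Complex.I * (β : ℂ)) • M)ᴴ))).PosDef}

def J : Matrix (Fin 2) (Fin 2) ℂ := !![0, -1; 1, 0]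

theorem quad0 (p q : ℝ) (h : ∀ s : ℝ, 0 ≤ s * p + s ^ 2 * q) : p = 0 := by
  by_contra hp
  have hq : 0 < |q| + 1 := by positivity
  have h1 := h (-p / (|q| + 1))
  have h2 : -p / (|q| + 1) * p + (-p / (|q| + 1)) ^ 2 * q =
      (p ^ 2 * (q - (|q| + 1))) / (|q| + 1) ^ 2 := by
    field_simp
    ring
  rw [h2] at h1
  have h3 : p ^ 2 * (q - (|q| + 1)) < 0 :=
    mul_neg_of_pos_of_neg (by positivity) (by linarith [le_abs_self q])
  have h4 : (p ^ 2 * (q - (|q| + 1))) / (|q| + 1) ^ 2 < 0 := div_neg_of_neg_of_pos h3 (by positivity)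
  linarith

theorem cone_of {θ : ℝ} (hθ : θ < Real.pi / 2) (z : ℂ) (h : z = 0 ∨ |z.arg| ≤ θ) :
    0 ≤ z.re ∧ (z.re = 0 → z = 0) ∧ z.im ≤ Real.tan θ * z.re := by
  rcases h with h | h
  · subst h; simp
  · rcases Complex.abs_arg_lt_pi_div_two_iff.1 (lt_of_le_of_lt h hθ) with h1 | h1
    · refine ⟨h1.le, fun h2 => absurd h2 h1.ne', ?_⟩
      have h2 : Real.tan z.arg ≤ Real.tan θ := by
        have ha := abs_le.1 h
        exact Real.strictMonoOn_tan.monotoneOn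
          ⟨by linarith [ha.1, (abs_nonneg z.arg).trans h], by linarith [ha.2]⟩
          ⟨by linarith [(abs_nonneg z.arg).trans h, Real.pi_pos], hθ⟩ ha.2
      rw [Complex.tan_arg, div_le_iff₀ h1] at h2
      exact h2
    · subst h1; simp

theorem lin_zero {θ : ℝ} (hθ : θ < Real.pi / 2) (Γ : Matrix (Fin 2) (Fin 2) ℂ)
    (h : InGamma θ Γ) (y v : Fin 2 → ℂ) (hy : star y ⬝ᵥ (Γ *ᵥ y) = 0) :
    star y ⬝ᵥ (Γ *ᵥ v) + star v ⬝ᵥ (Γ *ᵥ y) = 0 := by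
  have hs : ∀ s : ℝ, star (y + (s : ℂ) • v) ⬝ᵥ (Γ *ᵥ (y + (s : ℂ) • v)) =
      (s : ℂ) * (star y ⬝ᵥ (Γ *ᵥ v) + star v ⬝ᵥ (Γ *ᵥ y)) +
        (s : ℂ) ^ 2 * (star v ⬝ᵥ (Γ *ᵥ v)) := by
    intro s
    rw [star_add, star_smul, Matrix.mulVec_add, Matrix.mulVec_smul, add_dotProduct,
      dotProduct_add, dotProduct_add, smul_dotProduct, smul_dotProduct, dotProduct_smul,
      dotProduct_smul, hy]
    simp only [smul_eq_mul, RCLike.star_def, Complex.conj_ofReal]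
    ring
  set L := star y ⬝ᵥ (Γ *ᵥ v) + star v ⬝ᵥ (Γ *ᵥ y) with hL
  set Q := star v ⬝ᵥ (Γ *ᵥ v) with hQ
  have hre : ∀ s : ℝ, ((s : ℂ) * L + (s : ℂ) ^ 2 * Q).re = s * L.re + s ^ 2 * Q.re := by
    intro s
    rw [← Complex.ofReal_pow, Complex.add_re, Complex.re_ofReal_mul, Complex.re_ofReal_mul]
  have him : ∀ s : ℝ, ((s : ℂ) * L + (s : ℂ) ^ 2 * Q).im = s * L.im + s ^ 2 * Q.im := by
    intro s
    rw [← Complex.ofReal_pow, Complex.add_im, Complex.im_ofReal_mul, Complex.im_ofReal_mul]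
  have h1 : L.re = 0 := by
    apply quad0 _ Q.re
    intro s
    have := (cone_of hθ _ (h (y + (s : ℂ) • v))).1
    rw [hs, hre] at this
    exact this
  have h2 : -L.im = 0 := by
    apply quad0 _ (Real.tan θ * Q.re - Q.im)
    intro s
    have := (cone_of hθ _ (h (y + (s : ℂ) • v))).2.2
    rw [hs, hre, him, h1] at this
    nlinarith
  exact Complex.ext h1 (by simpa using h2)

theorem S_empty {θ : ℝ} (hθ : θ < Real.pi / 2) : ¬ (S θ J).Nonempty := by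
  rintro ⟨Γ, hΓ, hdet⟩
  obtain ⟨x, hx, hx0⟩ := Matrix.exists_mulVec_eq_zero_iff.2 hdet
  rw [Matrix.add_mulVec, Matrix.one_mulVec, ← Matrix.mulVec_mulVec] at hx0
  have hxe : Γ *ᵥ (J *ᵥ x) = -x := by
    rw [eq_neg_iff_add_eq_zero, add_comm]; exact hx0
  have hreal := cone_of hθ _ (hΓ (J *ᵥ x))
  have hz : star (J *ᵥ x) ⬝ᵥ (Γ *ᵥ (J *ᵥ x)) = 0 := by
    apply hreal.2.1
    rw [hxe]
    simp [J, dotProduct, Fin.sum_univ_two]
    ring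
  have ha := lin_zero hθ Γ hΓ (J *ᵥ x) (-x) hz
  have hb := lin_zero hθ Γ hΓ (J *ᵥ x) (Complex.I • (-x)) hz
  rw [hxe] at ha hb
  rw [Matrix.mulVec_smul, dotProduct_smul, star_smul, smul_dotProduct] at hb
  simp only [smul_eq_mul, RCLike.star_def, Complex.conj_I] at hb
  have hc : star (-x) ⬝ᵥ (-x) = 0 := by
    have h2 : (2 : ℂ) * (star (-x) ⬝ᵥ (-x)) = 0 := by
      linear_combination ha + Complex.I * hb +
        (star (J *ᵥ x) ⬝ᵥ Γ *ᵥ (-x) - star (-x) ⬝ᵥ (-x)) * (-Complex.I_mul_I)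
    exact (mul_eq_zero.1 h2).resolve_left two_ne_zero
  rw [dotProduct_star_self_eq_zero] at hc
  exact hx (neg_eq_zero.1 hc)

theorem muHat_ge {θ : ℝ} (h0 : 0 ≤ θ) (hθ : θ < Real.pi / 2) : 1 ≤ muHat θ J := by
  apply le_csInf
  · refine ⟨2, by norm_num, 1, one_pos, 0, Or.inr ?_, ?_⟩
    · rw [abs_zero, Real.cot_eq_cos_div_sin]
      exact div_nonneg (Real.cos_nonneg_of_mem_Icc ⟨by linarith [Real.pi_pos], hθ.le⟩)
        (Real.sin_nonneg_of_nonneg_of_le_pi h0 (by linarith [Real.pi_pos]))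
    have : (-(((1 : ℝ) : ℂ) • (Jᴴ * J - (((2 : ℝ) ^ 2 : ℝ) : ℂ) • (1 : Matrix (Fin 2) (Fin 2) ℂ)) -
      ((1 + Complex.I * ((0 : ℝ) : ℂ)) • J + ((1 + Complex.I * ((0 : ℝ) : ℂ)) • J)ᴴ))) =
        Matrix.diagonal (fun _ : Fin 2 => (3 : ℂ)) := by
      ext i j
      fin_cases i <;> fin_cases j <;>
        simp [J, Matrix.mul_apply, Fin.sum_univ_two, Matrix.conjTranspose_apply] <;> norm_num
    rw [this]
    apply Matrix.PosDef.diagonal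
    intro i
    norm_num
  · rintro γ ⟨hγ, r, hr, β, _, hpd⟩
    have h1 := hpd.diag_pos (i := 0)
    have h2 : (-((r : ℂ) • (Jᴴ * J - ((γ ^ 2 : ℝ) : ℂ) • (1 : Matrix (Fin 2) (Fin 2) ℂ)) -
      ((1 + Complex.I * (β : ℂ)) • J + ((1 + Complex.I * (β : ℂ)) • J)ᴴ))) 0 0 =
        ((r * (γ ^ 2 - 1) : ℝ) : ℂ) := by
      simp [J, Matrix.mul_apply, Fin.sum_univ_two, Matrix.conjTranspose_apply]
      ring
    rw [h2] at h1
    have h3 : 0 < r * (γ ^ 2 - 1) := by exact_mod_cast h1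
    have h4 : 0 < γ ^ 2 - 1 := (mul_pos_iff_of_pos_left hr).1 h3
    nlinarith

/-- For `M = !![0, -1; 1, 0]` and every `θ` in `[0, π/2)` one has `μ_θ(M) = 0` and
`μ̂_θ(M) ≥ 1`; so the LMI bound fails to be exact for every such `θ`. -/
theorem result (θ : ℝ) (h0 : 0 ≤ θ) (hθ : θ < Real.pi / 2) :
    mu θ (!![0, -1; 1, 0] : Matrix (Fin 2) (Fin 2) ℂ) = 0 ∧
    1 ≤ muHat θ (!![0, -1; 1, 0] : Matrix (Fin 2) (Fin 2) ℂ) := by
  refine ⟨?_, muHat_ge h0 hθ⟩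
  show mu θ J = 0
  unfold mu
  rw [if_neg (S_empty hθ)]

end Pool.Agent.Results.MP_0eb722_an.GapAllTheta
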